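import Pool.Agent.Helper96_LAX.Stmts

set_option autoImplicit false

namespace Pool.Agent.LAX.H20

lemma sqrt_add_le' {x y z w : ℝ} (hz : 0 ≤ z) (hw : y * √z ≤ w)
    (h : z + 2 * w + y * y ≤ x) : √z + y ≤ √x := by
  apply Real.le_sqrt_of_sq_le
  have h1 := Real.mul_self_sqrt hz
  have h2 : (√z + y) ^ 2 = √z * √z + 2 * (y * √z) + y * y := by ring
  rw [h2, h1]
  linarith

/-- the size of `A = lo / T` -/
lemma A_low {A r g : ℝ} {s I l : ℕ} {T lo : ℝ} (hg : g = (2:ℝ) ^ s) (hg0 : 0 < g)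
    (hr2 : r * r = (2:ℝ) ^ l)
    (F3 : 32 * (r * r) * T = g) (hAT : A * T = lo) (hk1 : 7 * (2:ℝ) ^ (s + I) ≤ lo)
    (hi1 : 2 * s ≤ I + 2 * l + 3) : 28 * (g * g) ≤ A * (r * r) := by
  have e1 : 4 * (g * g) ≤ (2:ℝ) ^ (s + I) * (32 * (r * r)) * (r * r) / g := by
    rw [le_div_iff₀ hg0, hr2, hg]
    have e2 : (2:ℝ) ^ (3 * s + 2) ≤ 2 ^ (s + I + 5 + 2 * l) := by
      apply pow_le_pow_right₀ (by norm_num)
      omega
    calc 4 * ((2:ℝ) ^ s * 2 ^ s) * 2 ^ s = 2 ^ (3 * s + 2) := by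
          rw [pow_add, pow_mul']; ring
      _ ≤ 2 ^ (s + I + 5 + 2 * l) := e2
      _ = (2:ℝ) ^ (s + I) * (32 * (2:ℝ) ^ l) * (2:ℝ) ^ l := by
          rw [pow_add, pow_add (2:ℝ) (s + I) 5, pow_mul']; ring
  have e3 : A = lo * (32 * (r * r)) / g := by
    rw [eq_div_iff hg0.ne', ← hAT, ← F3]; ring
  rw [e3]
  have hrr : 0 ≤ r * r := mul_self_nonneg r
  have e4 : 7 * ((2:ℝ) ^ (s + I) * (32 * (r * r)) * (r * r) / g)
      ≤ lo * (32 * (r * r)) / g * (r * r) := by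
    rw [show 7 * ((2:ℝ) ^ (s + I) * (32 * (r * r)) * (r * r) / g)
      = (7 * (2:ℝ) ^ (s + I)) * ((32 * (r * r)) / g * (r * r)) by ring,
      show lo * (32 * (r * r)) / g * (r * r) = lo * ((32 * (r * r)) / g * (r * r)) by ring]
    exact mul_le_mul_of_nonneg_right hk1 (by positivity)
  linarith

lemma A_up {A r g : ℝ} {s I l : ℕ} {T lo : ℝ} (hg : g = (2:ℝ) ^ s) (hg0 : 0 < g)
    (hr2 : r * r = (2:ℝ) ^ l)
    (F3 : 32 * (r * r) * T = g) (hAT : A * T = lo) (hk2 : lo ≤ 15 * (2:ℝ) ^ (s + I))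
    (hi2 : I + 2 * l + 1 ≤ 2 * s) : A * (r * r) ≤ 240 * (g * g) := by
  have e1 : (2:ℝ) ^ (s + I) * (32 * (r * r)) * (r * r) / g ≤ 16 * (g * g) := by
    rw [div_le_iff₀ hg0, hr2, hg]
    have e2 : (2:ℝ) ^ (s + I + 5 + 2 * l) ≤ (2:ℝ) ^ (3 * s + 4) := by
      apply pow_le_pow_right₀ (by norm_num)
      omega
    have e5 : (2:ℝ) ^ (s + I) * (32 * (2:ℝ) ^ l) * (2:ℝ) ^ l = 2 ^ (s + I + 5 + 2 * l) := by
      rw [pow_add (2:ℝ) (s + I + 5) (2 * l), pow_add (2:ℝ) (s + I) 5, pow_mul']; ring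
    have e6 : (2:ℝ) ^ (3 * s + 4) = 16 * ((2:ℝ) ^ s * 2 ^ s) * 2 ^ s := by
      rw [pow_add, pow_mul']; ring
    linarith
  have e3 : A = lo * (32 * (r * r)) / g := by
    rw [eq_div_iff hg0.ne', ← hAT, ← F3]; ring
  rw [e3]
  have hrr : 0 ≤ r * r := mul_self_nonneg r
  have e4 : lo * (32 * (r * r)) / g * (r * r)
      ≤ 15 * ((2:ℝ) ^ (s + I) * (32 * (r * r)) * (r * r) / g) := by
    rw [show 15 * ((2:ℝ) ^ (s + I) * (32 * (r * r)) * (r * r) / g)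
      = (15 * (2:ℝ) ^ (s + I)) * ((32 * (r * r)) / g * (r * r)) by ring,
      show lo * (32 * (r * r)) / g * (r * r) = lo * ((32 * (r * r)) / g * (r * r)) by ring]
    exact mul_le_mul_of_nonneg_right hk2 (by positivity)
  linarith

/-- linear consequences: `m = r^2`, `x = r α`, `A = α^2` -/
lemma facts {A r g α : ℝ} (hr0 : 0 < r) (hg0 : 0 < g) (hα0 : 0 ≤ α) (hα2 : α * α = A)
    (F2 : 2 ^ 30 * (r * r) ≤ g) (F1 : 28 * (g * g) ≤ A * (r * r))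
    (F1' : A * (r * r) ≤ 240 * (g * g)) :
    r * α ≤ 15.5 * g ∧ 28 * 2 ^ 30 * g ≤ A ∧ 2 ^ 30 * r ≤ α ∧ 2 ^ 30 * (r * r) ≤ r * α := by
  have hm : 0 < r * r := mul_pos hr0 hr0
  have G1 : r * α ≤ 15.5 * g := by
    by_contra hcon
    push Not at hcon
    have e1 : (r * α) * (r * α) = A * (r * r) := by rw [← hα2]; ring
    have e2 : (15.5 * g) * (15.5 * g) < (r * α) * (r * α) :=
      mul_self_lt_mul_self (by positivity) hcon
    have e3 : 0 < g * g := by positivity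
    rw [e1] at e2
    have e4 : (15.5 * g) * (15.5 * g) = 240.25 * (g * g) := by ring
    rw [e4] at e2
    linarith
  have G3 : 28 * 2 ^ 30 * g ≤ A := by
    have e1 : 28 * (2 ^ 30 * (r * r) * g) ≤ 28 * (g * g) := by
      have := mul_le_mul_of_nonneg_right F2 hg0.le
      linarith
    have e2 : (28 * 2 ^ 30 * g) * (r * r) ≤ A * (r * r) := by
      calc (28 * 2 ^ 30 * g) * (r * r) = 28 * (2 ^ 30 * (r * r) * g) := by ring
        _ ≤ 28 * (g * g) := e1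
        _ ≤ _ := F1
    exact le_of_mul_le_mul_right e2 hm
  have G2 : 2 ^ 30 * r ≤ α := by
    by_contra hcon
    push Not at hcon
    have e1 : α * α < (2 ^ 30 * r) * (2 ^ 30 * r) := mul_self_lt_mul_self hα0 hcon
    rw [hα2] at e1
    have e2 : (2 ^ 30 * r) * (2 ^ 30 * r) = 2 ^ 30 * (2 ^ 30 * (r * r)) := by ring
    rw [e2] at e1
    linarith
  refine ⟨G1, G3, G2, ?_⟩
  calc 2 ^ 30 * (r * r) = r * (2 ^ 30 * r) := by ring
    _ ≤ r * α := mul_le_mul_of_nonneg_left G2 hr0.le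

lemma sqD {A r α D : ℝ} (hr0 : 0 < r) (hα2 : α * α = A)
    (G2 : 2 ^ 30 * r ≤ α) (G4 : 2 ^ 30 * (r * r) ≤ r * α)
    (hDle : D ≤ A - 10.2 * (r * α)) :
    √(D + 16 * (r * r)) ≤ √(A - 544 * (r * r)) - 5 * r := by
  have hm : 0 < r * r := mul_pos hr0 hr0
  have e4 : α - 0.1 * r ≤ √(A - 544 * (r * r)) := by
    apply Real.le_sqrt_of_sq_le
    have : (α - 0.1 * r) ^ 2 = A - 0.2 * (r * α) + 0.01 * (r * r) := by rw [← hα2]; ring
    rw [this]
    linarith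
  have e5 : √(D + 16 * (r * r)) ≤ α - 5.1 * r := by
    apply Real.sqrt_le_iff.2
    constructor
    · linarith
    · have : (α - 5.1 * r) ^ 2 = A - 10.2 * (r * α) + 26.01 * (r * r) := by
        rw [← hα2]; ring
      rw [this]
      linarith
  linarith

lemma sqD' {A r α D' : ℝ} (hr0 : 0 < r) (hα0 : 0 ≤ α) (hα2 : α * α = A)
    (G4 : 2 ^ 30 * (r * r) ≤ r * α)
    (hD'ge : A + 5.2 * (r * α) + 7 * (r * r) ≤ D') :
    √(A + 2 ^ 19 * (r * r)) + 5 / 2 * r ≤ √D' := by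
  have hm : 0 < r * r := mul_pos hr0 hr0
  have e4 : √(A + 2 ^ 19 * (r * r)) ≤ α + 0.1 * r := by
    apply Real.sqrt_le_iff.2
    refine ⟨by positivity, ?_⟩
    have : (α + 0.1 * r) ^ 2 = A + 0.2 * (r * α) + 0.01 * (r * r) := by
      rw [← hα2]; ring
    rw [this]
    linarith
  have e5 : α + 2.6 * r ≤ √D' := by
    apply Real.le_sqrt_of_sq_le
    have : (α + 2.6 * r) ^ 2 = A + 5.2 * (r * α) + 6.76 * (r * r) := by
      rw [← hα2]; ring
    rw [this]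
    linarith
  linarith

lemma sqZ {r g y : ℝ} (hr0 : 0 < r) (hg0 : 0 < g) (F2 : 2 ^ 30 * (r * r) ≤ g)
    (hy : 895 * g ≤ y) : √(800 * g + 16 * (r * r)) ≤ √y - 5 * r := by
  have hm : 0 < r * r := mul_pos hr0 hr0
  have e12 : 5 * r * √(800 * g + 16 * (r * r)) ≤ 5 * g := by
    have e13 : √(800 * g + 16 * (r * r)) ≤ 2 ^ 15 * √g := by
      apply Real.sqrt_le_iff.2
      refine ⟨by positivity, ?_⟩
      have : (2 ^ 15 * √g) ^ 2 = 2 ^ 30 * g := by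
        rw [mul_pow, Real.sq_sqrt hg0.le]; norm_num
      rw [this]
      linarith
    have e14 : 2 ^ 15 * r ≤ √g := by
      apply Real.le_sqrt_of_sq_le
      have : (2 ^ 15 * r) ^ 2 = 2 ^ 30 * (r * r) := by ring
      rw [this]
      exact F2
    calc 5 * r * √(800 * g + 16 * (r * r)) ≤ 5 * r * (2 ^ 15 * √g) :=
          mul_le_mul_of_nonneg_left e13 (by positivity)
      _ = 5 * ((2 ^ 15 * r) * √g) := by ring
      _ ≤ 5 * (√g * √g) := by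
          apply mul_le_mul_of_nonneg_left _ (by norm_num)
          exact mul_le_mul_of_nonneg_right e14 (Real.sqrt_nonneg _)
      _ = 5 * g := by rw [Real.mul_self_sqrt hg0.le]
  have e11 : √(800 * g + 16 * (r * r)) + 5 * r ≤ √(895 * g) := by
    apply sqrt_add_le' (by positivity) e12
    have : (5 * r) * (5 * r) = 25 * (r * r) := by ring
    rw [this]
    linarith
  have e15 := Real.sqrt_le_sqrt hy
  linarith

theorem p2N : P2NStmt := by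
  intro k l s I h hp
  obtain ⟨r, hr⟩ : ∃ r : ℝ, r = √((2:ℝ) ^ l) := ⟨_, rfl⟩
  have hr0 : 0 < r := by rw [hr]; positivity
  have hr2 : r * r = (2:ℝ) ^ l := by rw [hr]; exact Real.mul_self_sqrt (by positivity)
  have hr1 : 1 ≤ r * r := by rw [hr2]; exact one_le_pow₀ (by norm_num)
  obtain ⟨g, hg⟩ : ∃ g : ℝ, g = (2:ℝ) ^ s := ⟨_, rfl⟩
  have hg0 : 0 < g := by rw [hg]; positivity
  obtain ⟨T, hT⟩ : ∃ T : ℝ, T = (2:ℝ) ^ h := ⟨_, rfl⟩
  have hT0 : 0 < T := by rw [hT]; positivity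
  have F2 : 2 ^ 30 * (r * r) ≤ g := by
    have h6 : (2:ℝ) ^ (l + 30) ≤ (2:ℝ) ^ s := pow_le_pow_right₀ (by norm_num) hp.p5
    rw [pow_add, ← hr2, ← hg] at h6
    linarith
  have F3 : 32 * (r * r) * T = g := by
    rw [hr2, hT, hg, hp.p4, pow_add, pow_add]
    norm_num
    ring
  have hqk : 2 ^ (s + I) ≤ k := by
    have := hp.p3
    have h5 : 2 ^ (s + I) ≤ 2 ^ (s + I + 3) := Nat.pow_le_pow_right (by norm_num) (by omega)
    omega
  obtain ⟨lo, hlo⟩ : ∃ lo : ℝ, lo = (k:ℝ) - 2 ^ (s + I) := ⟨_, rfl⟩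
  have hloc : ((k - 2 ^ (s + I) : ℕ) : ℝ) = lo := by
    rw [hlo, Nat.cast_sub hqk]; push_cast; ring
  have hk1 : 7 * (2:ℝ) ^ (s + I) ≤ lo := by
    have h5 : ((2 ^ (s + I + 3) : ℕ) : ℝ) ≤ k := by exact_mod_cast hp.p3
    push_cast at h5
    rw [pow_add] at h5
    rw [hlo]
    linarith
  have hk2 : lo ≤ 15 * (2:ℝ) ^ (s + I) := by
    have h5 : (k:ℝ) ≤ ((2 ^ (s + I + 4) : ℕ) : ℝ) := by exact_mod_cast hp.p3'.le
    push_cast at h5
    rw [pow_add] at h5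
    rw [hlo]
    linarith
  obtain ⟨A, hA⟩ : ∃ A : ℝ, A = lo / T := ⟨_, rfl⟩
  have hAT : A * T = lo := by rw [hA]; field_simp
  have F1 := A_low hg hg0 hr2 F3 hAT hk1 hp.i1
  have F1' := A_up hg hg0 hr2 F3 hAT hk2 hp.i2
  have hm : 0 < r * r := mul_pos hr0 hr0
  have hA0 : 0 < A := by
    have h1 : 0 < A * (r * r) := lt_of_lt_of_le (by positivity) F1
    exact (pos_iff_pos_of_mul_pos h1).2 hm
  obtain ⟨α, hα⟩ : ∃ α : ℝ, α = √A := ⟨_, rfl⟩
  have hα0 : 0 ≤ α := by rw [hα]; exact Real.sqrt_nonneg _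
  have hα2 : α * α = A := by rw [hα]; exact Real.mul_self_sqrt hA0.le
  obtain ⟨G1, G3, G2, G4⟩ := facts hr0 hg0 hα0 hα2 F2 F1 F1'
  have hgT : g / T = 32 * (r * r) := by rw [← F3]; field_simp
  have hg1 : 2 ^ 30 ≤ g := by linarith
  have hA896 : 896 * g ≤ A / T := by
    rw [le_div_iff₀ hT0]
    have e10 : (896 * g * T) * (r * r) ≤ A * (r * r) := by
      have : (896 * g * T) * (r * r) = 28 * (g * (32 * (r * r) * T)) := by ring
      rw [this, F3]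
      exact F1
    exact le_of_mul_le_mul_right e10 hm
  have hxr : 0 ≤ r * α := mul_nonneg hr0.le hα0
  obtain ⟨x, hx⟩ : ∃ x : ℝ, x = r * α := ⟨_, rfl⟩
  obtain ⟨m, hmd⟩ : ∃ m : ℝ, m = r * r := ⟨_, rfl⟩
  -- choices
  have hD0 : 0 ≤ A - 10.2 * (r * α) := by linarith
  have hDle : ((⌊A - 10.2 * (r * α)⌋₊ : ℕ) : ℝ) ≤ A - 10.2 * (r * α) := Nat.floor_le hD0
  have hDge : A - 10.2 * (r * α) - 1 < ((⌊A - 10.2 * (r * α)⌋₊ : ℕ) : ℝ) := by
    have := Nat.lt_floor_add_one (A - 10.2 * (r * α))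
    linarith
  have he0 : 0 ≤ A - 10 * (r * α) := by linarith
  have hele : ((⌊A - 10 * (r * α)⌋₊ : ℕ) : ℝ) ≤ A - 10 * (r * α) := Nat.floor_le he0
  have hege : A - 10 * (r * α) - 1 < ((⌊A - 10 * (r * α)⌋₊ : ℕ) : ℝ) := by
    have := Nat.lt_floor_add_one (A - 10 * (r * α))
    linarith
  have hD'ge : A + 5.2 * (r * α) + 7 * (r * r) ≤
      ((⌈A + 5.2 * (r * α) + 7 * (r * r)⌉₊ : ℕ) : ℝ) := Nat.le_ceil _
  have hD'le : ((⌈A + 5.2 * (r * α) + 7 * (r * r)⌉₊ : ℕ) : ℝ)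
      < A + 5.2 * (r * α) + 7 * (r * r) + 1 := Nat.ceil_lt_add_one (by positivity)
  have hgn : ((2 ^ (h + l + 4) : ℕ) : ℝ) = g / 2 := by
    push_cast
    have : g = 2 ^ (h + l + 4) * 2 := by rw [hg, hp.p4]; ring
    linarith
  generalize ⌊A - 10 * (r * α)⌋₊ = e1 at hele hege
  generalize ⌊A - 10.2 * (r * α)⌋₊ = D at hDle hDge
  generalize ⌈A + 5.2 * (r * α) + 7 * (r * r)⌉₊ = D' at hD'ge hD'le
  have hgle : 2 ^ (h + l + 4) ≤ e1 := by
    have : ((2 ^ (h + l + 4) : ℕ) : ℝ) ≤ (e1 : ℝ) := by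
      rw [hgn]; linarith
    exact_mod_cast this
  have hu : ((17 * 2 ^ s : ℕ) : ℝ) = 17 * g := by push_cast; rw [hg]
  have hHb : ((2 ^ (l + 4) : ℕ) : ℝ) = 16 * (r * r) := by
    push_cast; rw [hr2, pow_add]; ring
  have hbc : ((2 ^ (s + 8) : ℕ) : ℝ) = 256 * g := by
    push_cast; rw [hg, pow_add]; ring
  have hhi : ((k - 2 ^ (s + I) + 2 ^ (s + 14) : ℕ) : ℝ) = lo + 2 ^ 14 * g := by
    rw [Nat.cast_add, hloc, hg]; push_cast; rw [pow_add]; ring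
  have hζ : ((800 * 2 ^ s : ℕ) : ℝ) = 800 * g := by push_cast; rw [hg]
  have hsr : √((2:ℝ) ^ l) = r := hr.symm
  refine ⟨e1 - 2 ^ (h + l + 4), e1, D, D', 800 * 2 ^ s,
    ⟨?_, ?_, ?_, ?_, ?_, ?_, ?_, ?_⟩, ?_, ?_⟩
  · rw [hHb, hsr, ← hT]
    have e1 : ((2 ^ (h + l) : ℕ) : ℝ) / T = r * r := by
      push_cast
      rw [hT, hr2, pow_add]
      field_simp
    rw [e1]
    have e2 : √(r * r) = r := Real.sqrt_mul_self hr0.le
    have e3 : √(16 * (r * r)) = 4 * r := by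
      rw [show 16 * (r * r) = (4 * r) * (4 * r) by ring]
      exact Real.sqrt_mul_self (by positivity)
    rw [e2, e3]
    linarith
  · rw [hsr, ← hT]
    have e1 : ((2 ^ s : ℕ) : ℝ) / T = 32 * (r * r) := by
      push_cast
      rw [← hg, hgT]
    rw [e1]
    apply Real.lt_sqrt_of_sq_lt
    have : (5 * r) ^ 2 = 25 * (r * r) := by ring
    rw [this]
    linarith
  · rw [hloc, hu, hHb, hsr, ← hT]
    have e3 : (lo - 17 * g) / T = A - 544 * (r * r) := by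
      rw [sub_div, ← hA, mul_div_assoc, hgT]; ring
    rw [e3]
    exact sqD hr0 hα2 G2 G4 hDle
  · rw [hhi, hsr, ← hT]
    have e3 : (lo + 2 ^ 14 * g) / T = A + 2 ^ 19 * (r * r) := by
      rw [add_div, ← hA, mul_div_assoc, hgT]; ring
    rw [e3]
    exact sqD' hr0 hα0 hα2 G4 hD'ge
  · rw [hζ, hHb, hu, hsr, ← hT, Nat.cast_sub hgle, hgn]
    have e6 : 895 * g ≤ ((e1 : ℝ) - g / 2 - 17 * g) / T := by
      have e7 : A - 173 * g ≤ (e1 : ℝ) - g / 2 - 17 * g := by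
        linarith
      have e8 : (A - 173 * g) / T ≤ ((e1 : ℝ) - g / 2 - 17 * g) / T :=
        div_le_div_of_nonneg_right e7 hT0.le
      refine le_trans ?_ e8
      rw [sub_div, mul_div_assoc 173, hgT]
      linarith
    exact sqZ hr0 hg0 F2 e6
  · exact Nat.one_le_pow _ _ (by norm_num)
  · have : ((2 ^ (s + 8) : ℕ) : ℝ) ≤ (D : ℝ) := by
      rw [hbc]; linarith
    exact_mod_cast this
  · have : (D' : ℝ) + ((2 ^ (s + 8) : ℕ) : ℝ) ≤ (D : ℝ) + ((800 * 2 ^ s : ℕ) : ℝ) + 1 := by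
      rw [hbc, hζ]; linarith
    exact_mod_cast this
  · rw [hloc, hsr, ← hT, ← hA, ← hα]
    apply Real.sqrt_le_iff.2
    constructor
    · linarith
    · have : (α - 5 * r) ^ 2 = A - 10 * (r * α) + 25 * (r * r) := by
        rw [← hα2]; ring
      rw [this]
      linarith
  · have : 2 ^ h * 2 ^ (l + 4) = 2 ^ (h + l + 4) := by
      rw [← pow_add]; congr 1
    rw [this]
    omega

end Pool.Agent.LAX.H20
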